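import Pool.Agent.P8H72.RE.Stm
import Pool.Agent.W683.RC.Bas

/-!
# Project RE, package CS
-/

set_option autoImplicit false

namespace Pool.Agent.P8H16.RE

open Matrix
open scoped Kronecker ComplexOrder
open Pool.Agent.W661.RC (hs)
open Pool.Agent.W683.RC
open Pool.Agent.P8H72.RE

/-- `Tr ((E ⊗ M)* X) = Tr (M* ptr ((E* ⊗ 1) X))` -/
lemma trace_kron {n m : ℕ} (E : Matrix (Fin n) (Fin n) ℂ) (M : Matrix (Fin m) (Fin m) ℂ)
    (X : Matrix (Fin n × Fin m) (Fin n × Fin m) ℂ) :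
    Matrix.trace ((E ⊗ₖ M)ᴴ * X) =
      Matrix.trace (Mᴴ * ptr ((Eᴴ ⊗ₖ (1 : Matrix (Fin m) (Fin m) ℂ)) * X)) := by
  have h1 : (E ⊗ₖ M)ᴴ * X = (((1 : Matrix (Fin n) (Fin n) ℂ)) ⊗ₖ Mᴴ) *
      ((Eᴴ ⊗ₖ (1 : Matrix (Fin m) (Fin m) ℂ)) * X) := by
    rw [← Matrix.mul_assoc, ← Matrix.mul_kronecker_mul, Matrix.one_mul, Matrix.mul_one,
      Matrix.conjTranspose_kronecker]
  rw [h1]
  generalize ((Eᴴ ⊗ₖ (1 : Matrix (Fin m) (Fin m) ℂ)) * X) = Z
  simp only [Matrix.trace, Matrix.diag, Matrix.mul_apply, ptr, Fintype.sum_prod_type,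
    Matrix.kroneckerMap_apply, Matrix.one_apply]
  simp only [ite_mul, one_mul, zero_mul, Finset.sum_ite_irrel, Finset.sum_const_zero,
    Finset.sum_ite_eq, Finset.mem_univ, if_true, Finset.mul_sum]
  rw [Finset.sum_comm]
  refine Finset.sum_congr rfl fun i _ => ?_
  rw [Finset.sum_comm]

lemma tr_orth {n L : ℕ} {d : Fin L → ℕ}
    {e : ∀ l, Fin (d l) → Fin (d l) → Matrix (Fin n) (Fin n) ℂ} (h : MU e)
    (q q' : Σ l, Fin (d l) × Fin (d l)) :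
    Matrix.trace ((e q.1 q.2.1 q.2.2)ᴴ * e q'.1 q'.2.1 q'.2.2) =
      if q = q' then (((Matrix.trace (e q.1 q.2.1 q.2.1)).re : ℝ) : ℂ) else 0 := by
  obtain ⟨l, a, b⟩ := q
  obtain ⟨l', a', b'⟩ := q'
  simp only
  rw [h.star]
  by_cases hl : l = l'
  · subst hl
    by_cases ha : a = a'
    · subst ha
      rw [h.mul]
      by_cases hb : b = b'
      · subst hb
        rw [if_pos rfl]
        have h1 : Matrix.trace (e l b b) = Matrix.trace (e l a a) := by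
          rw [← h.mul l b a b, Matrix.trace_mul_comm, h.mul]
        have h2 : e l a a = (e l a a)ᴴ * e l a a := by rw [h.star, h.mul]
        have h3 : Matrix.trace (e l a a) = ((hs (e l a a) : ℝ) : ℂ) := by
          conv_lhs => rw [h2]
          exact trace_conjTranspose_mul_self _
        rw [h1, h3, Complex.ofReal_re]
      · rw [if_neg (by simp [hb])]
        rw [← h.mul l b b b', Matrix.trace_mul_comm, h.zero _ _ _ _ _ (Ne.symm hb),
          Matrix.trace_zero]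
    · rw [h.zero _ _ _ _ _ ha, Matrix.trace_zero, if_neg (by simp [ha])]
  · rw [h.orth _ _ _ _ _ _ hl, Matrix.trace_zero, if_neg (by simp [hl])]

lemma kr_eq {n m L : ℕ} {d : Fin L → ℕ}
    (e : ∀ l, Fin (d l) → Fin (d l) → Matrix (Fin n) (Fin n) ℂ)
    (μ : ∀ l, Fin (d l) → Fin (d l) → Matrix (Fin m) (Fin m) ℂ) :
    kr e μ = ∑ q : Σ l, Fin (d l) × Fin (d l), e q.1 q.2.1 q.2.2 ⊗ₖ μ q.1 q.2.1 q.2.2 := by
  unfold kr
  rw [Fintype.sum_sigma]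
  refine Finset.sum_congr rfl fun l _ => ?_
  rw [Fintype.sum_prod_type]

/-- `hs (kr e μ) = ∑ Tr (e l a a) hs (μ l a b)` -/
lemma hs_kr {n m L : ℕ} {d : Fin L → ℕ}
    {e : ∀ l, Fin (d l) → Fin (d l) → Matrix (Fin n) (Fin n) ℂ} (h : MU e)
    (μ : ∀ l, Fin (d l) → Fin (d l) → Matrix (Fin m) (Fin m) ℂ) :
    hs (kr e μ) = ∑ q : Σ l, Fin (d l) × Fin (d l),
      (Matrix.trace (e q.1 q.2.1 q.2.1)).re * hs (μ q.1 q.2.1 q.2.2) := by
  have h1 : Matrix.trace ((kr e μ)ᴴ * kr e μ) = ((∑ q : Σ l, Fin (d l) × Fin (d l),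
      (Matrix.trace (e q.1 q.2.1 q.2.1)).re * hs (μ q.1 q.2.1 q.2.2) : ℝ) : ℂ) := by
    rw [kr_eq, Matrix.conjTranspose_sum, Finset.sum_mul, Matrix.trace_sum, Complex.ofReal_sum]
    refine Finset.sum_congr rfl fun q _ => ?_
    rw [Finset.mul_sum, Matrix.trace_sum]
    have h2 : ∀ q' : Σ l, Fin (d l) × Fin (d l),
        Matrix.trace ((e q.1 q.2.1 q.2.2 ⊗ₖ μ q.1 q.2.1 q.2.2)ᴴ *
          (e q'.1 q'.2.1 q'.2.2 ⊗ₖ μ q'.1 q'.2.1 q'.2.2)) =
        if q = q' then (((Matrix.trace (e q.1 q.2.1 q.2.1)).re : ℝ) : ℂ) *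
          ((hs (μ q.1 q.2.1 q.2.2) : ℝ) : ℂ) else 0 := by
      intro q'
      rw [Matrix.conjTranspose_kronecker, ← Matrix.mul_kronecker_mul, Matrix.trace_kronecker,
        tr_orth h q q']
      by_cases hq : q = q'
      · subst hq
        rw [if_pos rfl, if_pos rfl, trace_conjTranspose_mul_self]
      · rw [if_neg hq, if_neg hq, zero_mul]
    rw [Finset.sum_congr rfl fun q' _ => h2 q', Finset.sum_ite_eq, if_pos (Finset.mem_univ _)]
    push_cast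
    rfl
  have h2 := hs_eq (kr e μ)
  rw [h1, Complex.ofReal_re] at h2
  exact h2

/-- Package CS of project RE. -/
theorem t_CS : S_CS := by
  intro n m L d e he hpos X μ
  set t : (Σ l, Fin (d l) × Fin (d l)) → ℝ := fun q => (Matrix.trace (e q.1 q.2.1 q.2.1)).re with ht
  have htp : ∀ q, 0 < t q := fun q => hpos _ _
  set g : (Σ l, Fin (d l) × Fin (d l)) → Matrix (Fin m) (Fin m) ℂ := fun q =>
    ptr (((e q.1 q.2.1 q.2.2)ᴴ ⊗ₖ (1 : Matrix (Fin m) (Fin m) ℂ)) * X) with hg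
  have h1 : Matrix.trace ((kr e μ)ᴴ * X) = ∑ q, Matrix.trace ((μ q.1 q.2.1 q.2.2)ᴴ * g q) := by
    rw [kr_eq, Matrix.conjTranspose_sum, Finset.sum_mul, Matrix.trace_sum]
    exact Finset.sum_congr rfl fun q _ => trace_kron _ _ _
  have h2 : ‖Matrix.trace ((kr e μ)ᴴ * X)‖ ≤ ∑ q, √(t q * hs (μ q.1 q.2.1 q.2.2)) *
      √(hs (g q) / t q) := by
    rw [h1]
    refine (norm_sum_le _ _).trans (Finset.sum_le_sum fun q _ => ?_)
    refine (norm_trace_le _ _).trans (le_of_eq ?_)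
    rw [← Real.sqrt_mul (hs_nonneg _), ← Real.sqrt_mul (mul_nonneg (htp q).le (hs_nonneg _))]
    congr 1
    have := (htp q).ne'
    field_simp
  have h3 : (∑ q, √(t q * hs (μ q.1 q.2.1 q.2.2)) * √(hs (g q) / t q)) ^ 2 ≤
      (∑ q, √(t q * hs (μ q.1 q.2.1 q.2.2)) ^ 2) * ∑ q, √(hs (g q) / t q) ^ 2 :=
    Finset.sum_mul_sq_le_sq_mul_sq _ _ _
  have h4 : ∀ q, √(t q * hs (μ q.1 q.2.1 q.2.2)) ^ 2 = t q * hs (μ q.1 q.2.1 q.2.2) := fun q =>
    Real.sq_sqrt (mul_nonneg (htp q).le (hs_nonneg _))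
  have h5 : ∀ q, √(hs (g q) / t q) ^ 2 = hs (g q) / t q := fun q =>
    Real.sq_sqrt (div_nonneg (hs_nonneg _) (htp q).le)
  rw [Finset.sum_congr rfl fun q _ => h4 q, Finset.sum_congr rfl fun q _ => h5 q,
    ← hs_kr he μ] at h3
  have h6 : ∑ q, hs (g q) / t q = ∑ l, ∑ a, ∑ b,
      hs (ptr (((e l a b)ᴴ ⊗ₖ (1 : Matrix (Fin m) (Fin m) ℂ)) * X)) /
          (Matrix.trace (e l a a)).re := by
    rw [Fintype.sum_sigma]
    refine Finset.sum_congr rfl fun l _ => ?_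
    rw [Fintype.sum_prod_type]
  rw [← h6]
  exact (pow_le_pow_left₀ (norm_nonneg _) h2 2).trans h3

end Pool.Agent.P8H16.RE
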