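import Pool.Agent.P8H72.RE.Stm
import Pool.Agent.W683.RC.Bas

/-!
# Project RE, package DIX
-/

set_option autoImplicit false

namespace Pool.Agent.P8H16.RE

open Matrix
open scoped Kronecker ComplexOrder
open Pool.Agent.W661.RC (hs)
open Pool.Agent.W683.RC
open Pool.Agent.P8H72.RE

section minimal

variable {N : Type} [Fintype N]

lemma hs_cont (T : Type) [TopologicalSpace T] (f : T → Matrix N N ℂ) (hf : Continuous f) :
    Continuous fun t => hs (f t) := by
  unfold Pool.Agent.W661.RC.hs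
  refine continuous_finsetSum _ fun i _ => continuous_finsetSum _ fun j _ => ?_
  exact ((hf.matrix_elem i j).norm).pow 2

lemma norm_entry_le (Z : Matrix N N ℂ) (i j : N) : ‖Z i j‖ ^ 2 ≤ hs Z := by
  unfold Pool.Agent.W661.RC.hs
  have h1 : ‖Z i j‖ ^ 2 ≤ ∑ j', ‖Z i j'‖ ^ 2 :=
    Finset.single_le_sum (f := fun j' => ‖Z i j'‖ ^ 2) (fun _ _ => by positivity)
      (Finset.mem_univ j)
  have h2 : ∑ j', ‖Z i j'‖ ^ 2 ≤ ∑ i', ∑ j', ‖Z i' j'‖ ^ 2 :=
    Finset.single_le_sum (f := fun i' => ∑ j', ‖Z i' j'‖ ^ 2)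
      (fun _ _ => Finset.sum_nonneg fun _ _ => by positivity) (Finset.mem_univ i)
  exact h1.trans h2

lemma hs_half (Z W : Matrix N N ℂ) :
    hs (Z - W) + 4 * hs (((1 / 2 : ℝ) : ℂ) • (Z + W)) = 2 * hs Z + 2 * hs W := by
  rw [hs_smul_real, hs_eq_norm (Z - W), hs_eq_norm (Z + W), hs_eq_norm Z, hs_eq_norm W, vc_sub,
    vc_add]
  have := parallelogram_law_with_norm ℂ (vc Z) (vc W)
  nlinarith [this]

/-- `hs` of a midpoint -/
lemma hs_mid_le {Z W : Matrix N N ℂ} {B : ℝ} (hZ : hs Z ≤ B) (hW : hs W ≤ B) :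
    hs (((1 / 2 : ℝ) : ℂ) • (Z + W)) ≤ B := by
  have := hs_half Z W
  have h1 := hs_nonneg (Z - W)
  linarith

/-- a closed bounded midpoint-convex set of matrices has a unique element of minimal norm -/
lemma exists_min (K : Set (Matrix N N ℂ)) (hc : IsClosed K) (hne : K.Nonempty) (B : ℝ)
    (hB : ∀ Z ∈ K, hs Z ≤ B)
    (hmid : ∀ Z ∈ K, ∀ W ∈ K, ((1 / 2 : ℝ) : ℂ) • (Z + W) ∈ K) :
    ∃ Z ∈ K, ∀ W ∈ K, hs W ≤ hs Z → W = Z := by
  have hcomp : IsCompact K := by
    have h1 : IsCompact (Set.pi Set.univ fun _ : N => Set.pi Set.univ fun _ : N =>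
        Metric.closedBall (0 : ℂ) (√B)) :=
      isCompact_univ_pi fun _ => isCompact_univ_pi fun _ => isCompact_closedBall _ _
    refine h1.of_isClosed_subset hc ?_
    intro Z hZ i _ j _
    rw [mem_closedBall_zero_iff]
    exact Real.le_sqrt_of_sq_le ((norm_entry_le Z i j).trans (hB Z hZ))
  obtain ⟨Z, hZ, hmin⟩ := hcomp.exists_isMinOn hne
    (hs_cont _ (fun Z : Matrix N N ℂ => Z) continuous_id).continuousOn
  refine ⟨Z, hZ, fun W hW hle => ?_⟩
  have h1 : hs Z ≤ hs (((1 / 2 : ℝ) : ℂ) • (W + Z)) := hmin (hmid W hW Z hZ)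
  have h2 := hs_half W Z
  have h3 : hs (W - Z) ≤ 0 := by linarith
  exact sub_eq_zero.1 (hs_eq_zero_iff.1 (le_antisymm h3 (hs_nonneg _)))

end minimal

section comm

/-- in finite dimensions every element of the commutant of a self-adjoint set is a linear combination
of unitaries of the commutant -/
lemma span_unitary {n : ℕ} (S : Set (Matrix (Fin n) (Fin n) ℂ)) (hS : ∀ s ∈ S, sᴴ ∈ S)
    (y : Matrix (Fin n) (Fin n) ℂ) (hy : ∀ s ∈ S, y * s = s * y) :
    ∃ (u : Fin 4 → unitaryGroup (Fin n) ℂ) (c : Fin 4 → ℂ),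
      (∀ i, ∀ s ∈ S, (u i : Matrix (Fin n) (Fin n) ℂ) * s = s * u i) ∧
      y = ∑ i, c i • (u i : Matrix (Fin n) (Fin n) ℂ) := by
  classical
  open scoped Matrix.Norms.L2Operator in
  let C : StarSubalgebra ℂ (Matrix (Fin n) (Fin n) ℂ) := StarSubalgebra.centralizer ℂ S
  have hmem : ∀ z, z ∈ C ↔ ∀ s ∈ S, z * s = s * z := by
    intro z
    rw [StarSubalgebra.mem_centralizer_iff]
    constructor
    · intro h s hs
      exact (h s hs).1.symm
    · intro h s hs
      exact ⟨(h s hs).symm, (h _ (hS s hs)).symm⟩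
  open scoped Matrix.Norms.L2Operator in
  have hcl : IsClosed (C : Set (Matrix (Fin n) (Fin n) ℂ)) := by
    have : FiniteDimensional ℂ (Subalgebra.toSubmodule C.toSubalgebra) := inferInstance
    exact Submodule.closed_of_finiteDimensional (Subalgebra.toSubmodule C.toSubalgebra)
  open scoped Matrix.Norms.L2Operator in
  let _ : CStarAlgebra C := inferInstance
  obtain ⟨u, c, hu, -⟩ := CStarAlgebra.exists_sum_four_unitary (⟨y, (hmem y).2 hy⟩ : C)
  refine ⟨fun i => ⟨((u i : C) : Matrix (Fin n) (Fin n) ℂ), ?_⟩, c, ?_, ?_⟩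
  · rw [Matrix.mem_unitaryGroup_iff]
    exact congrArg (fun z : C => (z : Matrix (Fin n) (Fin n) ℂ)) (Unitary.coe_mul_star_self (u i))
  · intro i s hs
    exact (hmem _).1 (u i : C).2 s hs
  · have := congrArg (fun z : C => (z : Matrix (Fin n) (Fin n) ℂ)) hu
    simpa using this

variable {n m : ℕ}

lemma comm_tensor (S : Set (Matrix (Fin n) (Fin n) ℂ)) (hS : ∀ s ∈ S, sᴴ ∈ S)
    (Z : Matrix (Fin n × Fin m) (Fin n × Fin m) ℂ)
    (hZ : ∀ Y : unitaryGroup (Fin n) ℂ,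
        (∀ s ∈ S, (Y : Matrix (Fin n) (Fin n) ℂ) * s = s * Y) →
        ((Y : Matrix (Fin n) (Fin n) ℂ) ⊗ₖ (1 : Matrix (Fin m) (Fin m) ℂ)) * Z =
          Z * ((Y : Matrix (Fin n) (Fin n) ℂ) ⊗ₖ (1 : Matrix (Fin m) (Fin m) ℂ)))
    (y : Matrix (Fin n) (Fin n) ℂ) (hy : ∀ s ∈ S, y * s = s * y) :
    (y ⊗ₖ (1 : Matrix (Fin m) (Fin m) ℂ)) * Z = Z * (y ⊗ₖ (1 : Matrix (Fin m) (Fin m) ℂ)) := by
  obtain ⟨u, c, hu, rfl⟩ := span_unitary S hS y hy
  have h1 : (∑ i, c i • (u i : Matrix (Fin n) (Fin n) ℂ)) ⊗ₖ (1 : Matrix (Fin m) (Fin m) ℂ) =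
      ∑ i, c i • ((u i : Matrix (Fin n) (Fin n) ℂ) ⊗ₖ (1 : Matrix (Fin m) (Fin m) ℂ)) := by
    ext ⟨a, b⟩ ⟨a', b'⟩
    simp only [Matrix.kroneckerMap_apply, Matrix.sum_apply, Matrix.smul_apply, smul_eq_mul,
      Finset.sum_mul, mul_assoc]
  rw [h1, Finset.sum_mul, Finset.mul_sum]
  refine Finset.sum_congr rfl fun i _ => ?_
  rw [Matrix.smul_mul, Matrix.mul_smul, hZ _ (hu i)]

end comm

section struct

variable {n m : ℕ}

/-- `A ⊗ 1` -/
def te1 (m : ℕ) (A : Matrix (Fin n) (Fin n) ℂ) : Matrix (Fin n × Fin m) (Fin n × Fin m) ℂ :=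
  A ⊗ₖ (1 : Matrix (Fin m) (Fin m) ℂ)

lemma te1_mul (A B : Matrix (Fin n) (Fin n) ℂ) : te1 m (A * B) = te1 m A * te1 m B := by
  unfold te1
  rw [← Matrix.mul_kronecker_mul, Matrix.one_mul]

lemma te1_one : te1 m (1 : Matrix (Fin n) (Fin n) ℂ) = 1 := by
  unfold te1
  exact Matrix.one_kronecker_one

lemma te1_zero : te1 m (0 : Matrix (Fin n) (Fin n) ℂ) = 0 := by
  unfold te1
  exact Matrix.zero_kronecker _

lemma te1_add (A B : Matrix (Fin n) (Fin n) ℂ) : te1 m (A + B) = te1 m A + te1 m B := by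
  unfold te1
  exact Matrix.add_kronecker _ _ _

lemma te1_sum {ι : Type*} (s : Finset ι) (f : ι → Matrix (Fin n) (Fin n) ℂ) :
    te1 m (∑ i ∈ s, f i) = ∑ i ∈ s, te1 m (f i) := by
  classical
  induction s using Finset.induction_on with
  | empty => simp [te1_zero]
  | insert a s ha ih => rw [Finset.sum_insert ha, Finset.sum_insert ha, te1_add, ih]

lemma te1_sub (A B : Matrix (Fin n) (Fin n) ℂ) : te1 m (A - B) = te1 m A - te1 m B := by
  rw [eq_sub_iff_add_eq, ← te1_add, sub_add_cancel]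

lemma te1_star (A : Matrix (Fin n) (Fin n) ℂ) : (te1 m A)ᴴ = te1 m Aᴴ := by
  unfold te1
  rw [Matrix.conjTranspose_kronecker, Matrix.conjTranspose_one]

lemma te1_mul_apply (A : Matrix (Fin n) (Fin n) ℂ)
    (W : Matrix (Fin n × Fin m) (Fin n × Fin m) ℂ) (i j : Fin n) (k l : Fin m) :
    (te1 m A * W) (i, k) (j, l) = ∑ r, A i r * W (r, k) (j, l) := by
  simp only [te1, Matrix.mul_apply, Fintype.sum_prod_type, Matrix.kroneckerMap_apply,
    Matrix.one_apply, mul_ite, mul_one, mul_zero, ite_mul, zero_mul, Finset.sum_ite_eq,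
    Finset.mem_univ, if_true]

lemma mul_te1_apply (A : Matrix (Fin n) (Fin n) ℂ)
    (W : Matrix (Fin n × Fin m) (Fin n × Fin m) ℂ) (i j : Fin n) (k l : Fin m) :
    (W * te1 m A) (i, k) (j, l) = ∑ r, W (i, k) (r, l) * A r j := by
  simp only [te1, Matrix.mul_apply, Fintype.sum_prod_type, Matrix.kroneckerMap_apply,
    Matrix.one_apply, mul_ite, mul_one, mul_zero, Finset.sum_ite_eq',
    Finset.mem_univ, if_true]

/-- an operator on `E ⊗ ℂ^m` which commutes with `B(E) ⊗ 1` is in `1 ⊗ M_m` -/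
lemma scalar_block (E : Matrix (Fin n) (Fin n) ℂ) (W : Matrix (Fin n × Fin m) (Fin n × Fin m) ℂ)
    (h1 : te1 m E * W = W) (h2 : W * te1 m E = W)
    (h3 : ∀ x, te1 m (E * x * E) * W = W * te1 m (E * x * E)) :
    ∃ μ : Matrix (Fin m) (Fin m) ℂ, W = E ⊗ₖ μ := by
  by_cases hE : E = 0
  · refine ⟨0, ?_⟩
    rw [← h1, hE, te1_zero, Matrix.zero_mul, Matrix.zero_kronecker]
  · obtain ⟨j, s, hjs⟩ : ∃ j s, E j s ≠ 0 := by
      by_contra hcon
      push Not at hcon
      exact hE (by ext j s; exact hcon j s)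
    refine ⟨Matrix.of fun k l => W (j, k) (s, l) / E j s, ?_⟩
    have h4 : ∀ x, te1 m (E * x) * W = W * te1 m (x * E) := by
      intro x
      have := h3 x
      rw [te1_mul, Matrix.mul_assoc, h1] at this
      rw [this, ← te1_mul, Matrix.mul_assoc E x E, te1_mul E, ← Matrix.mul_assoc, h2]
    ext ⟨r, k⟩ ⟨i, l⟩
    have h5 := congrFun (congrFun (h4 (Matrix.single i j 1)) (r, k)) (s, l)
    rw [te1_mul_apply, mul_te1_apply] at h5
    have h6 : ∑ r', (E * Matrix.single i j (1 : ℂ)) r r' * W (r', k) (s, l) =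
        E r i * W (j, k) (s, l) := by
      rw [Finset.sum_eq_single j]
      · simp [Matrix.mul_apply, Matrix.single_apply]
      · intro b _ hb
        simp [Matrix.mul_apply, Ne.symm hb]
      · simp
    have h7 : ∑ r', W (r, k) (r', l) * (Matrix.single i j (1 : ℂ) * E) r' s =
        W (r, k) (i, l) * E j s := by
      rw [Finset.sum_eq_single i]
      · simp [Matrix.mul_apply, Matrix.single_apply]
      · intro b _ hb
        simp [Matrix.mul_apply, Ne.symm hb]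
      · simp
    rw [h6, h7] at h5
    rw [Matrix.kroneckerMap_apply, Matrix.of_apply, mul_div_assoc', eq_div_iff hjs]
    exact h5.symm

variable {L : ℕ} {d : Fin L → ℕ}
  {e : ∀ l, Fin (d l) → Fin (d l) → Matrix (Fin n) (Fin n) ℂ}

lemma mu_mul (h : MU e) (l l' : Fin L) (a b : Fin (d l)) (a' b' : Fin (d l')) (H : l = l')
    (H' : H ▸ b = a') : e l a b * e l' a' b' = e l a (H.symm ▸ b') := by
  subst H
  subst H'
  exact h.mul _ _ _ _

/-- `z₀ = 1 - ∑ e l a a` -/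
def z0 (e : ∀ l, Fin (d l) → Fin (d l) → Matrix (Fin n) (Fin n) ℂ) : Matrix (Fin n) (Fin n) ℂ :=
  1 - ∑ l, ∑ a, e l a a

lemma sum_mul_e (h : MU e) (l : Fin L) (p q : Fin (d l)) :
    (∑ l, ∑ a, e l a a) * e l p q = e l p q := by
  rw [Finset.sum_mul, Finset.sum_eq_single l]
  · rw [Finset.sum_mul, Finset.sum_eq_single p]
    · exact h.mul _ _ _ _
    · intro b _ hb
      exact h.zero _ _ _ _ _ hb
    · simp
  · intro l' _ hl'
    rw [Finset.sum_mul]
    exact Finset.sum_eq_zero fun a _ => h.orth _ _ _ _ _ _ hl'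
  · simp

lemma e_mul_sum (h : MU e) (l : Fin L) (p q : Fin (d l)) :
    e l p q * (∑ l, ∑ a, e l a a) = e l p q := by
  rw [Finset.mul_sum, Finset.sum_eq_single l]
  · rw [Finset.mul_sum, Finset.sum_eq_single q]
    · exact h.mul _ _ _ _
    · intro b _ hb
      exact h.zero _ _ _ _ _ (Ne.symm hb)
    · simp
  · intro l' _ hl'
    rw [Finset.mul_sum]
    exact Finset.sum_eq_zero fun a _ => h.orth _ _ _ _ _ _ (Ne.symm hl')
  · simp

lemma z0_mul_e (h : MU e) (l : Fin L) (p q : Fin (d l)) : z0 e * e l p q = 0 := by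
  rw [z0, Matrix.sub_mul, Matrix.one_mul, sum_mul_e h, sub_self]

lemma e_mul_z0 (h : MU e) (l : Fin L) (p q : Fin (d l)) : e l p q * z0 e = 0 := by
  rw [z0, Matrix.mul_sub, Matrix.mul_one, e_mul_sum h, sub_self]

lemma z0_star (h : MU e) : (z0 e)ᴴ = z0 e := by
  rw [z0, Matrix.conjTranspose_sub, Matrix.conjTranspose_one, Matrix.conjTranspose_sum]
  congr 1
  refine Finset.sum_congr rfl fun l _ => ?_
  rw [Matrix.conjTranspose_sum]
  exact Finset.sum_congr rfl fun a _ => h.star _ _ _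

lemma z0_mul_z0 (h : MU e) : z0 e * z0 e = z0 e := by
  have h1 : z0 e * (∑ l, ∑ a, e l a a) = 0 := by
    rw [Finset.mul_sum]
    refine Finset.sum_eq_zero fun l _ => ?_
    rw [Finset.mul_sum]
    exact Finset.sum_eq_zero fun a _ => z0_mul_e h _ _ _
  conv_lhs => rw [show z0 e * z0 e = z0 e * (1 - ∑ l, ∑ a, e l a a) from rfl]
  rw [Matrix.mul_sub, h1, Matrix.mul_one, sub_zero]

/-- elements of the commutant -/
def Cm (e : ∀ l, Fin (d l) → Fin (d l) → Matrix (Fin n) (Fin n) ℂ)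
    (y : Matrix (Fin n) (Fin n) ℂ) : Prop := ∀ l a b, y * e l a b = e l a b * y

/-- the commutant: corner elements -/
lemma cm_corner (h : MU e) (l : Fin L) (b : Fin (d l)) (x : Matrix (Fin n) (Fin n) ℂ) :
    Cm e (∑ a, e l a b * x * e l b a) := by
  intro l' p q
  by_cases hl : l = l'
  · subst hl
    rw [Finset.sum_mul, Finset.mul_sum, Finset.sum_eq_single p, Finset.sum_eq_single q]
    · rw [Matrix.mul_assoc, h.mul, ← Matrix.mul_assoc, ← Matrix.mul_assoc, h.mul]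
    · intro c _ hc
      rw [← Matrix.mul_assoc, ← Matrix.mul_assoc, h.zero _ _ _ _ _ (Ne.symm hc), Matrix.zero_mul,
        Matrix.zero_mul]
    · simp
    · intro c _ hc
      rw [Matrix.mul_assoc, h.zero _ _ _ _ _ hc, Matrix.mul_zero]
    · simp
  · rw [Finset.sum_mul, Finset.mul_sum]
    rw [Finset.sum_eq_zero, Finset.sum_eq_zero]
    · intro c _
      rw [← Matrix.mul_assoc, ← Matrix.mul_assoc, h.orth _ _ _ _ _ _ (Ne.symm hl),
        Matrix.zero_mul, Matrix.zero_mul]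
    · intro c _
      rw [Matrix.mul_assoc, h.orth _ _ _ _ _ _ hl, Matrix.mul_zero]

lemma cm_z0 (h : MU e) : Cm e (z0 e) := by
  intro l a b
  rw [z0_mul_e h, e_mul_z0 h]

lemma cm_central (h : MU e) (l : Fin L) : Cm e (∑ a, e l a a) := by
  intro l' p q
  by_cases hl : l = l'
  · subst hl
    rw [Finset.sum_mul, Finset.mul_sum, Finset.sum_eq_single p, Finset.sum_eq_single q]
    · rw [h.mul, h.mul]
    · intro c _ hc
      exact h.zero _ _ _ _ _ (Ne.symm hc)
    · simp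
    · intro c _ hc
      exact h.zero _ _ _ _ _ hc
    · simp
  · rw [Finset.sum_mul, Finset.mul_sum]
    rw [Finset.sum_eq_zero, Finset.sum_eq_zero]
    · intro c _
      exact h.orth _ _ _ _ _ _ (Ne.symm hl)
    · intro c _
      exact h.orth _ _ _ _ _ _ hl

/-- the diagonal blocks -/
lemma diag_block (h : MU e) (Z : Matrix (Fin n × Fin m) (Fin n × Fin m) ℂ)
    (hZ : ∀ y, Cm e y → te1 m y * Z = Z * te1 m y) (l : Fin L) (p q : Fin (d l)) :
    ∃ μ : Matrix (Fin m) (Fin m) ℂ, te1 m (e l p p) * Z * te1 m (e l q q) = e l p q ⊗ₖ μ := by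
  obtain ⟨μ, hμ⟩ := scalar_block (m := m) (e l p p) (te1 m (e l p p) * Z * te1 m (e l q p))
    (by rw [← Matrix.mul_assoc, ← Matrix.mul_assoc, ← te1_mul, h.mul])
    (by rw [Matrix.mul_assoc, ← te1_mul, h.mul]) (by
      intro x
      set y := ∑ a, e l a p * x * e l p a with hy
      have hyc := hZ y (cm_corner h l p x)
      have e1 : e l p p * x * e l p p * e l p p = e l p p * y := by
        rw [hy, Finset.mul_sum, Finset.sum_eq_single p]
        · rw [Matrix.mul_assoc, h.mul, ← Matrix.mul_assoc, ← Matrix.mul_assoc, h.mul]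
        · intro c _ hc
          rw [← Matrix.mul_assoc, ← Matrix.mul_assoc, h.zero _ _ _ _ _ (Ne.symm hc),
            Matrix.zero_mul, Matrix.zero_mul]
        · simp
      have e2 : y * e l q p = e l q p * (e l p p * x * e l p p) := by
        rw [hy, Finset.sum_mul, Finset.sum_eq_single q]
        · rw [Matrix.mul_assoc, h.mul, ← Matrix.mul_assoc, ← Matrix.mul_assoc, h.mul]
        · intro c _ hc
          rw [Matrix.mul_assoc, h.zero _ _ _ _ _ hc, Matrix.mul_zero]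
        · simp
      rw [← Matrix.mul_assoc, ← Matrix.mul_assoc, ← te1_mul, e1, te1_mul, Matrix.mul_assoc
        (te1 m (e l p p)), hyc, Matrix.mul_assoc, Matrix.mul_assoc, ← te1_mul, e2, te1_mul]
      simp only [Matrix.mul_assoc])
  refine ⟨μ, ?_⟩
  have e3 : te1 m (e l q q) = te1 m (e l q p) * te1 m (e l p q) := by rw [← te1_mul, h.mul]
  rw [e3, ← Matrix.mul_assoc, hμ]
  unfold te1
  rw [← Matrix.mul_kronecker_mul, h.mul, Matrix.mul_one]

/-- the off-diagonal blocks -/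
lemma off_block (h : MU e) (Z : Matrix (Fin n × Fin m) (Fin n × Fin m) ℂ)
    (hZ : ∀ y, Cm e y → te1 m y * Z = Z * te1 m y) (l l' : Fin L) (hl : l ≠ l') (p : Fin (d l))
    (q : Fin (d l')) : te1 m (e l p p) * Z * te1 m (e l' q q) = 0 := by
  have h1 := hZ _ (cm_central h l)
  have e1 : e l p p = e l p p * ∑ a, e l a a := by
    rw [Finset.mul_sum, Finset.sum_eq_single p]
    · rw [h.mul]
    · intro c _ hc
      exact h.zero _ _ _ _ _ (Ne.symm hc)
    · simp
  have e2 : (∑ a, e l a a) * e l' q q = 0 := by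
    rw [Finset.sum_mul]
    exact Finset.sum_eq_zero fun c _ => h.orth _ _ _ _ _ _ hl
  rw [e1, te1_mul, Matrix.mul_assoc (te1 m (e l p p)), h1, Matrix.mul_assoc, Matrix.mul_assoc,
    ← te1_mul, e2, te1_zero, Matrix.mul_zero, Matrix.mul_zero]

/-- the structure of the commutant of `(commutant of e) ⊗ 1` -/
lemma structure_ (h : MU e) (Z : Matrix (Fin n × Fin m) (Fin n × Fin m) ℂ)
    (hZ : ∀ y, Cm e y → te1 m y * Z = Z * te1 m y) :
    ∃ μ : ∀ l, Fin (d l) → Fin (d l) → Matrix (Fin m) (Fin m) ℂ,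
      Z = te1 m (z0 e) * Z + kr e μ := by
  choose μ hμ using fun l p q => diag_block h Z hZ l p q
  refine ⟨μ, ?_⟩
  have h1 : ∀ l p, te1 m (e l p p) * Z = ∑ q, e l p q ⊗ₖ μ l p q := by
    intro l p
    have h2 : te1 m (e l p p) * Z = te1 m (e l p p) * Z * te1 m (z0 e + ∑ l, ∑ a, e l a a) := by
      rw [z0, sub_add_cancel, te1_one, Matrix.mul_one]
    rw [h2, te1_add, Matrix.mul_add]
    have h3 : te1 m (e l p p) * Z * te1 m (z0 e) = 0 := by
      rw [Matrix.mul_assoc, ← hZ _ (cm_z0 h), ← Matrix.mul_assoc, ← te1_mul, e_mul_z0 h, te1_zero,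
        Matrix.zero_mul]
    rw [h3, zero_add, te1_sum, Finset.mul_sum, Finset.sum_eq_single l]
    · rw [te1_sum, Finset.mul_sum]
      exact Finset.sum_congr rfl fun q _ => hμ l p q
    · intro l' _ hl'
      rw [te1_sum, Finset.mul_sum]
      exact Finset.sum_eq_zero fun q _ => off_block h Z hZ l l' (Ne.symm hl') p q
    · simp
  have h4 : Z = te1 m (z0 e + ∑ l, ∑ a, e l a a) * Z := by
    rw [z0, sub_add_cancel, te1_one, Matrix.one_mul]
  conv_lhs => rw [h4]
  rw [te1_add, Matrix.add_mul]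
  congr 1
  rw [te1_sum, Finset.sum_mul]
  unfold kr
  refine Finset.sum_congr rfl fun l _ => ?_
  rw [te1_sum, Finset.sum_mul]
  exact Finset.sum_congr rfl fun p _ => h1 l p

end struct

/-- Package DIX of project RE. -/
theorem t_DIX : S_DIX := by
  intro n m L d e he X c hX
  set N := Fin n × Fin m
  have hXu : (X : Matrix N N ℂ)ᴴ * (X : Matrix N N ℂ) = 1 := (Matrix.mem_unitaryGroup_iff'.1 X.2)
  -- the convex set
  let K : Set (Matrix N N ℂ) := {Z | (∀ W : Matrix N N ℂ, hs (Z * W) ≤ hs W ∧ hs (W * Z) ≤ hs W) ∧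
    ∀ Y : unitaryGroup (Fin n) ℂ, Cm e (Y : Matrix (Fin n) (Fin n) ℂ) →
      c ≤ (Matrix.trace (te1 m (Y : Matrix (Fin n) (Fin n) ℂ) * Z *
        (te1 m (Y : Matrix (Fin n) (Fin n) ℂ))ᴴ * (X : Matrix N N ℂ)ᴴ)).re}
  have hYu : ∀ Y : unitaryGroup (Fin n) ℂ,
      (te1 m (Y : Matrix (Fin n) (Fin n) ℂ))ᴴ * te1 m (Y : Matrix (Fin n) (Fin n) ℂ) = 1 := by
    intro Y
    rw [te1_star, ← te1_mul]
    have : (Y : Matrix (Fin n) (Fin n) ℂ)ᴴ * Y = 1 := Matrix.mem_unitaryGroup_iff'.1 Y.2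
    rw [this, te1_one]
  have hYu' : ∀ Y : unitaryGroup (Fin n) ℂ,
      te1 m (Y : Matrix (Fin n) (Fin n) ℂ) * (te1 m (Y : Matrix (Fin n) (Fin n) ℂ))ᴴ = 1 :=
    fun Y => mul_eq_one_comm.1 (hYu Y)
  have hKc : IsClosed K := by
    have e1 : K = (⋂ W : Matrix N N ℂ, ({Z | hs (Z * W) ≤ hs W} ∩ {Z | hs (W * Z) ≤ hs W})) ∩
        ⋂ Y : unitaryGroup (Fin n) ℂ, ⋂ _ : Cm e (Y : Matrix (Fin n) (Fin n) ℂ),
          {Z | c ≤ (Matrix.trace (te1 m (Y : Matrix (Fin n) (Fin n) ℂ) * Z *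
            (te1 m (Y : Matrix (Fin n) (Fin n) ℂ))ᴴ * (X : Matrix N N ℂ)ᴴ)).re} := by
      ext Z
      simp only [K, Set.mem_ofPred_eq, Set.mem_inter_iff, Set.mem_iInter]
    rw [e1]
    refine IsClosed.inter (isClosed_iInter fun W => IsClosed.inter ?_ ?_)
      (isClosed_iInter fun Y => isClosed_iInter fun _ => ?_)
    · exact isClosed_le (hs_cont _ _ (continuous_id.matrix_mul continuous_const)) continuous_const
    · exact isClosed_le (hs_cont _ _ (continuous_const.matrix_mul continuous_id)) continuous_const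
    · refine isClosed_le continuous_const (Complex.continuous_re.comp (Continuous.matrix_trace ?_))
      exact ((continuous_const.matrix_mul continuous_id).matrix_mul
        continuous_const).matrix_mul continuous_const
  have hXK : (X : Matrix N N ℂ) ∈ K := by
    refine ⟨fun W => ⟨(hs_isom_mul hXu W).le, (hs_mul_coisom (mul_eq_one_comm.1 hXu) W).le⟩,
      fun Y hY => ?_⟩
    exact hX Y hY
  have hB : ∀ Z ∈ K, hs Z ≤ n * m := by
    intro Z hZ
    have h1 := (hZ.1 1).1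
    rw [Matrix.mul_one] at h1
    refine h1.trans (le_of_eq ?_)
    have h2 := hs_eq (1 : Matrix N N ℂ)
    rw [Matrix.conjTranspose_one, Matrix.mul_one, Matrix.trace_one] at h2
    rw [h2]
    simp [N]
  have hmid : ∀ Z ∈ K, ∀ W ∈ K, ((1 / 2 : ℝ) : ℂ) • (Z + W) ∈ K := by
    intro Z hZ W hW
    refine ⟨fun V => ⟨?_, ?_⟩, fun Y hY => ?_⟩
    · rw [Matrix.smul_mul, Matrix.add_mul]
      exact hs_mid_le (hZ.1 V).1 (hW.1 V).1
    · rw [Matrix.mul_smul, Matrix.mul_add]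
      exact hs_mid_le (hZ.1 V).2 (hW.1 V).2
    · have h1 := hZ.2 Y hY
      have h2 := hW.2 Y hY
      rw [Matrix.mul_smul, Matrix.mul_add, Matrix.smul_mul, Matrix.smul_mul, Matrix.add_mul,
        Matrix.add_mul, Matrix.trace_smul, Matrix.trace_add, smul_eq_mul, Complex.re_ofReal_mul,
        Complex.add_re]
      linarith
  obtain ⟨Z, hZK, hmin⟩ := exists_min K hKc ⟨_, hXK⟩ (n * m) hB hmid
  -- invariance
  have hinv : ∀ Y : unitaryGroup (Fin n) ℂ, Cm e (Y : Matrix (Fin n) (Fin n) ℂ) →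
      te1 m (Y : Matrix (Fin n) (Fin n) ℂ) * Z = Z * te1 m (Y : Matrix (Fin n) (Fin n) ℂ) := by
    intro Y hY
    set V := te1 m (Y : Matrix (Fin n) (Fin n) ℂ) with hV
    have h1 : V * Z * Vᴴ ∈ K := by
      refine ⟨fun W => ⟨?_, ?_⟩, fun Y' hY' => ?_⟩
      · rw [Matrix.mul_assoc, Matrix.mul_assoc, hs_isom_mul (hYu Y)]
        refine (hZK.1 _).1.trans (le_of_eq ?_)
        exact hs_isom_mul (by rw [Matrix.conjTranspose_conjTranspose]; exact hYu' Y) W
      · rw [← Matrix.mul_assoc, ← Matrix.mul_assoc, hs_mul_coisom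
          (by rw [Matrix.conjTranspose_conjTranspose]; exact hYu Y)]
        refine (hZK.1 _).2.trans (le_of_eq ?_)
        exact hs_mul_coisom (hYu' Y) W
      · have h2 := hZK.2 (Y' * Y) (by
          intro l a b
          rw [Submonoid.coe_mul, Matrix.mul_assoc, hY l a b, ← Matrix.mul_assoc, hY' l a b,
            Matrix.mul_assoc])
        rw [Submonoid.coe_mul, te1_mul, Matrix.conjTranspose_mul] at h2
        convert h2 using 3
        simp only [hV, Matrix.mul_assoc]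
    have h2 : hs (V * Z * Vᴴ) ≤ hs Z := by
      rw [hs_mul_coisom (by rw [Matrix.conjTranspose_conjTranspose]; exact hYu Y),
        hs_isom_mul (hYu Y)]
    have h3 := hmin _ h1 h2
    calc V * Z = V * Z * (Vᴴ * V) := by rw [hYu Y, Matrix.mul_one]
      _ = (V * Z * Vᴴ) * V := by simp only [Matrix.mul_assoc]
      _ = Z * V := by rw [h3]
  have hcomm : ∀ y, Cm e y → te1 m y * Z = Z * te1 m y := by
    intro y hy
    refine comm_tensor {s | ∃ l a b, s = e l a b} ?_ Z ?_ y ?_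
    · rintro s ⟨l, a, b, rfl⟩
      exact ⟨l, b, a, he.star l a b⟩
    · intro Y hY
      exact hinv Y fun l a b => hY _ ⟨l, a, b, rfl⟩
    · rintro s ⟨l, a, b, rfl⟩
      exact hy l a b
  obtain ⟨μ, hμ⟩ := structure_ he Z hcomm
  refine ⟨te1 m (z0 e) * Z, μ, ?_, ?_, ?_, ?_⟩
  · change _ = te1 m (z0 e) * (te1 m (z0 e) * Z)
    rw [← Matrix.mul_assoc, ← te1_mul, z0_mul_z0 he]
  · have hp : Pool.Agent.W661.RC.IsPr (te1 m (z0 e)) :=
      ⟨by rw [te1_star, z0_star he], by rw [← te1_mul, z0_mul_z0 he]⟩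
    have h1 := hs_pyth_left hp Z
    have h2 : (1 - te1 m (z0 e)) * Z = kr e μ := by
      rw [Matrix.sub_mul, Matrix.one_mul, sub_eq_iff_eq_add]
      rw [add_comm]
      exact hμ
    rw [h2] at h1
    rw [← h1]
    exact hB Z hZK
  · rw [← hμ]
    intro W
    rw [one_mul]
    exact hZK.1 W
  · rw [← hμ]
    have h1 := hZK.2 1 (by intro l a b; rw [Submonoid.coe_one, Matrix.one_mul, Matrix.mul_one])
    rw [Submonoid.coe_one, te1_one, Matrix.one_mul, Matrix.conjTranspose_one, Matrix.mul_one] at h1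
    exact h1

end Pool.Agent.P8H16.RE
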